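import Pool.Agent.Y742.CN.All
import Pool.Agent.Y742.GG.Stab

/-! Derivations which vanish on the common invariants of several fibrations in curves. -/

set_option autoImplicit false

namespace Pool.Agent.U207.GB

open MvPolynomial IntermediateField

section

variable {Ω K : Type} [Field Ω] [Field K] [Algebra Ω K]

theorem alg_mono {U V K : Type} [Field U] [Field V] [Field K] [Algebra U K] [Algebra V K]
    (f : U →+* V) (hf : (algebraMap V K).comp f = algebraMap U K) {a : K} (h : IsAlgebraic U a) :
    IsAlgebraic V a := by
  obtain ⟨p, hp, hpa⟩ := h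
  refine ⟨p.map f, (Polynomial.map_ne_zero_iff f.injective).2 hp, ?_⟩
  rw [Polynomial.aeval_def, Polynomial.eval₂_map, hf]
  exact hpa

/-- the common invariants: functions algebraic over all `L i` -/
noncomputable def inv {I : Type} (L : I → IntermediateField Ω K) : IntermediateField Ω K :=
  ⨅ i, (algebraicClosure (L i) K).restrictScalars Ω

theorem mem_inv {I : Type} {L : I → IntermediateField Ω K} {a : K} :
    a ∈ inv L ↔ ∀ i, IsAlgebraic (L i) a := by
  rw [← SetLike.mem_coe, inv, IntermediateField.coe_iInf, Set.mem_iInter]
  refine forall_congr' fun i => ?_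
  rw [SetLike.mem_coe, IntermediateField.mem_restrictScalars, mem_algebraicClosure_iff]

/-- a derivation vanishes on the elements which are algebraic over its constants -/
theorem der_alg [CharZero Ω] (D : Derivation Ω K K) (S : Set K) (hS : ∀ a ∈ S, D a = 0) {a : K}
    (ha : IsAlgebraic (Algebra.adjoin Ω S) a) : D a = 0 := by
  have h : Pool.Agent.Y742.CN.DerAlong Ω (RingHom.id K) (fun a => D a) :=
    ⟨fun a b => map_add D a b, fun a b => by
      simp only [Derivation.leibniz, smul_eq_mul, RingHom.id_apply], fun c => D.map_algebraMap c⟩
  refine Pool.Agent.Y467.CN.along_alg h ?_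
  obtain ⟨p, hp, hpa⟩ := ha
  have hle : Algebra.adjoin Ω S ≤ (Pool.Agent.Y467.CN.zs h).toSubalgebra := by
    rw [Algebra.adjoin_le_iff]
    intro a ha
    exact hS a ha
  let f : Algebra.adjoin Ω S →+* Pool.Agent.Y467.CN.zs h :=
    { toFun := fun a => ⟨a, hle a.2⟩
      map_one' := rfl
      map_mul' := fun a b => rfl
      map_zero' := rfl
      map_add' := fun a b => rfl }
  have hf : Function.Injective f := by
    intro a b hab
    exact Subtype.ext (congrArg (fun z : Pool.Agent.Y467.CN.zs h => (z : K)) hab)
  refine ⟨p.map f, (Polynomial.map_ne_zero_iff hf).2 hp, ?_⟩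
  rw [Polynomial.aeval_def, Polynomial.eval₂_map]
  exact hpa

theorem der_algF [CharZero Ω] (D : Derivation Ω K K) (L : IntermediateField Ω K)
    (hS : ∀ a ∈ L, D a = 0) {a : K} (ha : IsAlgebraic L a) : D a = 0 := by
  refine der_alg D (L : Set K) hS ?_
  obtain ⟨p, hp, hpa⟩ := ha
  let f : L →+* Algebra.adjoin Ω (L : Set K) :=
    { toFun := fun a => ⟨a, Algebra.subset_adjoin a.2⟩
      map_one' := rfl
      map_mul' := fun a b => rfl
      map_zero' := rfl
      map_add' := fun a b => rfl }
  refine ⟨p.map f, (Polynomial.map_ne_zero_iff f.injective).2 hp, ?_⟩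
  rw [Polynomial.aeval_def, Polynomial.eval₂_map]
  exact hpa

/-- a Lie algebra of derivations, closed under multiplication with functions, which contains the
derivations tangent to the fibrations contains all the derivations which vanish on the common
invariants -/
theorem mem_lie [CharZero Ω] {I : Type} (L : I → IntermediateField Ω K) {n : ℕ} (x : Fin n → K)
    (hx : IsTranscendenceBasis (inv L) x)
    (hL : ∀ i, ∃ t : K, Transcendental (L i) t ∧
      ∀ b : K, IsAlgebraic (IntermediateField.adjoin (L i) {t}) b)
    (g : LieSubalgebra Ω (Derivation Ω K K)) (hg : ∀ D ∈ g, ∀ c : K, c • D ∈ g)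
    (hD : ∀ (i : I) (D : Derivation Ω K K), (∀ a ∈ L i, D a = 0) → D ∈ g)
    (E : Derivation Ω K K) (hE : ∀ a ∈ inv L, E a = 0) : E ∈ g := by
  classical
  have hch : CharZero (inv L) := charZero_of_injective_algebraMap (algebraMap Ω (inv L)).injective
  obtain ⟨M, hM⟩ : ∃ M : IntermediateField Ω K, M = inv L := ⟨_, rfl⟩
  rw [← hM] at hx hE hch
  -- the Lie algebra over the invariants
  let res : Derivation M K K → Derivation Ω K K := fun D => D.restrictScalars Ω
  have hres : ∀ (D : Derivation M K K) (a : K), res D a = D a := fun D a => rfl
  let T : LieSubalgebra M (Derivation M K K) :=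
    { carrier := {D | res D ∈ g}
      add_mem' := by
        intro A B hA hB
        have h : res (A + B) = res A + res B := by
          ext a
          rfl
        change res (A + B) ∈ g
        rw [h]
        exact add_mem hA hB
      zero_mem' := by
        have h : res 0 = 0 := by
          ext a
          rfl
        change res 0 ∈ g
        rw [h]
        exact zero_mem _
      smul_mem' := by
        intro c A hA
        have h : res (c • A) = (c : K) • res A := by
          ext a
          rfl
        change res (c • A) ∈ g
        rw [h]
        exact hg _ hA _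
      lie_mem' := by
        intro A B hA hB
        have h : res ⁅A, B⁆ = ⁅res A, res B⁆ := by
          ext a
          simp only [Derivation.commutator_apply, hres]
        change res ⁅A, B⁆ ∈ g
        rw [h]
        exact LieSubalgebra.lie_mem _ hA hB }
  -- the algebraic closures of the `L i`
  have hle : ∀ i, M ≤ (algebraicClosure (L i) K).restrictScalars Ω := by
    intro i
    rw [hM]
    exact iInf_le _ i
  let L' : I → IntermediateField M K := fun i => IntermediateField.extendScalars (hle i)
  have hL' : ∀ i (a : K), a ∈ L' i ↔ IsAlgebraic (L i) a := by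
    intro i a
    rw [IntermediateField.mem_extendScalars, IntermediateField.mem_restrictScalars,
      mem_algebraicClosure_iff]
  -- elements algebraic over the closures
  have hcl : ∀ i (a : K), IsAlgebraic (L' i) a → IsAlgebraic (L i) a := by
    intro i a ha
    let f : L' i →+* algebraicClosure (L i) K :=
      { toFun := fun a => ⟨a, mem_algebraicClosure_iff.mpr ((hL' i a).mp a.2)⟩
        map_one' := rfl
        map_mul' := fun a b => rfl
        map_zero' := rfl
        map_add' := fun a b => rfl }
    have h1 : IsAlgebraic (algebraicClosure (L i) K) a := alg_mono f rfl ha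
    have h2 : a ∈ algebraicClosure (algebraicClosure (L i) K) K := mem_algebraicClosure_iff.mpr h1
    rw [algebraicClosure.algebraicClosure_eq_bot, IntermediateField.mem_bot] at h2
    obtain ⟨b, rfl⟩ := h2
    exact mem_algebraicClosure_iff.mp b.2
  have hmain := Pool.Agent.Y742.CN.sMain M K I n x hx L' (fun i => by
    obtain ⟨t, ht, hb⟩ := hL i
    refine ⟨t, fun h => ht (hcl i t h), fun b => ?_⟩
    have h1 : ∀ y ∈ IntermediateField.adjoin (L i) {t},
        y ∈ IntermediateField.adjoin (L' i) ({t} : Set K) := by
      intro y hy
      induction hy using IntermediateField.adjoin_induction with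
      | mem y hy => exact IntermediateField.subset_adjoin _ _ hy
      | algebraMap y =>
        exact IntermediateField.algebraMap_mem _
          (⟨(y : K), (hL' i y).mpr (isAlgebraic_algebraMap y)⟩ : L' i)
      | add a b _ _ ha hb => exact add_mem ha hb
      | inv a _ ha => exact inv_mem ha
      | mul a b _ _ ha hb => exact mul_mem ha hb
    let f : IntermediateField.adjoin (L i) {t} →+* IntermediateField.adjoin (L' i) ({t} : Set K) :=
      { toFun := fun a => ⟨a, h1 a a.2⟩
        map_one' := rfl
        map_mul' := fun a b => rfl
        map_zero' := rfl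
        map_add' := fun a b => rfl }
    exact alg_mono f rfl (hb b)) (fun a ha => by
      have h2 : a ∈ M := by
        rw [hM, mem_inv]
        exact fun i => hcl i a (ha i)
      exact ⟨⟨a, h2⟩, rfl⟩)
  have htop : ∀ D : Derivation M K K, D ∈ T := by
    have h1 : (⊤ : LieSubalgebra M (Derivation M K K)) ≤ T := by
      rw [← hmain, LieSubalgebra.lieSpan_le]
      rintro D ⟨i, hi⟩
      refine hD i _ fun a ha => ?_
      rw [hres]
      exact hi a ((hL' i a).mpr (isAlgebraic_algebraMap (⟨a, ha⟩ : L i)))
    exact fun D => h1 (LieSubalgebra.mem_top D)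
  -- the derivation over the invariants
  let E' : Derivation M K K := Derivation.mk'
    { toFun := fun a => E a
      map_add' := fun a b => map_add E a b
      map_smul' := fun c a => by
        rw [RingHom.id_apply, Algebra.smul_def, Derivation.leibniz]
        have h1 : E (algebraMap M K c) = 0 := hE _ c.2
        rw [h1, smul_zero, add_zero, smul_eq_mul, Algebra.smul_def] }
    (fun a b => E.leibniz a b)
  have h1 := htop E'
  have h2 : res E' = E := by
    ext a
    rfl
  change res E' ∈ g at h1
  rwa [h2] at h1

end

end Pool.Agent.U207.GB
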