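import Pool.Agent.U207.GB.Stab
import Pool.Agent.Y742.BS.All

/-! Zariski dense entire curves on varieties with fibrations in curves of genus at most one: the
base of the common invariants. Adapted from `Pool.Agent.Y742.BS.Main`. -/

set_option autoImplicit false

namespace Pool.Agent.U207.GB

open MvPolynomial Pool.Agent.Y742.GG Pool.Agent.TH178.GM Pool.Agent.W599.CB Pool.Agent.W572
open Pool.Agent.W572.G Pool.Agent.Y742.BS Pool.Agent.Y742

theorem exists_l0 {F : Type} [Field F] [CharZero F] {K : Type} [Field K] [Algebra F K] {N : ℕ}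
    {G : MvPolynomial (Fin N) F} (hG : G ≠ 0) {x : Fin N → K} (hx : aeval x G = 0)
    {S : Set (Fin N)} (hS : AlgebraicIndependent F (fun i : S => x i)) :
    ∃ l₀, l₀ ∉ S ∧ pderiv l₀ G ≠ 0 := by
  by_contra hcon
  push Not at hcon
  apply hG
  refine zero_of_closed S {G, 0} ?_ ?_ G (Or.inl rfl)
  · rintro _ (rfl | rfl) j hj
    · exact Or.inr (hcon j hj)
    · exact Or.inr (map_zero _)
  · rintro _ (rfl | rfl) hv
    · rw [← mem_supported, supported_eq_range_rename, AlgHom.mem_range] at hv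
      obtain ⟨G₁, hG₁⟩ := hv
      rw [← hG₁, aeval_rename] at hx
      have h1 : G₁ = 0 := hS (by rw [map_zero]; exact hx)
      rw [← hG₁, h1, map_zero]
    · rfl

theorem base_curves {N m : ℕ} (F : MvPolynomial (Fin N) ℂ) (hF : Irreducible F)
    {K : Type} [Field K] [Algebra ℂ K] {x : Fin N → K} (hx : IsGenericPoint F x)
    (L : Fin m → IntermediateField ℂ K)
    (hL : ∀ i, IsDoubleCoverOfLine (L i) ∨ IsEllipticTorsor (L i))
    (S : Set (Fin N)) (hS : AlgebraicIndependent ℂ (fun i : S => x i))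
    (hinv : ∀ a : K, (∀ i, IsAlgebraic (L i) a) → IsAlgebraic (Algebra.adjoin ℂ (x '' S)) a) :
    ∃ T : MvPolynomial (Fin N) ℂ, aeval x T ≠ 0 ∧ ∀ γ : Fin N → Mer, aeval γ F = 0 →
      aeval γ T ≠ 0 → AlgebraicIndependent ℂ (fun i : S => γ i) →
      ∃ P : Fin N → Mer, ∀ Q : MvPolynomial (Fin N) ℂ, aeval P Q = 0 ↔ F ∣ Q := by
  classical
  have hcK : CharZero K := charZero_of_injective_algebraMap (algebraMap ℂ K).injective
  have hF0x : aeval x F = 0 := (hx.zero_iff F).2 dvd_rfl
  obtain ⟨l₀, hS₀, hl₀⟩ := exists_l0 hF.ne_zero hF0x hS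
  obtain ⟨n, y, hy⟩ : ∃ (n : ℕ) (y : Fin n → K), IsTranscendenceBasis (inv L) y := by
    have htop : IntermediateField.adjoin (inv L) (Set.range x) = ⊤ := by
      rw [eq_top_iff]
      intro z _
      have h1 : z ∈ IntermediateField.adjoin ℂ (Set.range x) := by rw [hx.generates]; trivial
      have h2 : IntermediateField.adjoin ℂ (Set.range x) ≤
          (IntermediateField.adjoin (inv L) (Set.range x)).restrictScalars ℂ := by
        rw [IntermediateField.adjoin_le_iff]
        exact IntermediateField.subset_adjoin _ _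
      exact h2 h1
    have halg : Algebra.IsAlgebraic (Algebra.adjoin (inv L) (Set.range x)) K := by
      rw [← IntermediateField.isAlgebraic_adjoin_iff_top, htop]
      exact ⟨fun a => isAlgebraic_algebraMap (⟨a, trivial⟩ : (⊤ : IntermediateField (inv L) K))⟩
    obtain ⟨s, hs, hs'⟩ := exists_isTranscendenceBasis_subset (R := inv L) (Set.range x)
    have hfin : s.Finite := (Set.finite_range x).subset hs
    have : Finite s := hfin
    let e := Finite.equivFin s
    exact ⟨Nat.card s, fun i => (e.symm i : K), hs'.comp_equiv e.symm⟩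
  -- the fibrations with a derivation
  let J : Type := {i : Fin m // ∃ E : Derivation ℂ K K, E ≠ 0 ∧ ∀ a ∈ L i, E a = 0}
  have hJ : Finite J := Subtype.finite
  have hinst : ∀ i : J, ∃ (D : Derivation ℂ K K) (μ : Mv K N),
      (∀ E' : Derivation ℂ K K, (∀ a ∈ L i.1, E' a = 0) → ∃ c : K, E' = c • D) ∧
      (∀ l, μ.d l = D (x l)) ∧ μ.Ok (algebraMap ℂ K) F x := by
    have hF0 : eval₂ ((algebraMap ℂ K).comp (RingHom.id ℂ)) x F = 0 :=
      (hx.zero_iff F).2 dvd_rfl
    rintro ⟨i, E, hE, hEL⟩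
    rcases hL i with ⟨t, w, Q, ht, hw, hdeg, hQ, hg⟩ | ⟨K', _, _, _, hfin, hgal, a, b, c, X, Y, H⟩
    · obtain ⟨D, hD, hDt, hall⟩ := exists_norm ht hw hQ hg hE hEL
      obtain ⟨μ, h1, h2, h3⟩ := inst x ht hw hdeg hQ hg D hD hDt
      exact ⟨D, μ, hall, h1, h2 ℂ (RingHom.id ℂ) F hF0⟩
    · obtain ⟨E₁, D₁, hE₁, hD₁, hX, hall⟩ := H.norm hE hEL
      obtain ⟨μ, h1, h2, h3⟩ := H.inst x hE₁ hD₁ hX
      refine ⟨-E₁, μ, fun E' hE' => ?_, h1, h2 ℂ (RingHom.id ℂ) F hF0⟩
      obtain ⟨c, hc⟩ := hall E' hE'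
      exact ⟨-c, by rw [hc, neg_smul_neg]⟩
  choose D μ hall hd hOk using hinst
  let e := Finite.equivFin J
  have hc := fun i : Fin (Nat.card J) =>
    sFamAll K N F x hx.zero_iff hx.generates (μ (e.symm i)) (hOk _)
  choose c hc1 hc2 using hc
  refine gen_rel hF hx.zero_iff hx.generates hS₀ hl₀ (fun i => D (e.symm i)) ?_ c hc1
    (fun i => by
      obtain ⟨κ, hκ, h⟩ := hc2 i
      exact ⟨κ, hκ, fun l => by rw [h, hd]⟩)
  intro k hkS hkl g hg hgD E hE
  refine mem_lie L y hy (fun i => ?_) g hg (fun i D' hD' => ?_) E (fun a ha => ?_)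
  · rcases hL i with h | h
    · exact CN.curve_double h
    · exact CN.curve_torsor h
  · by_cases h0 : D' = 0
    · rw [h0]
      exact zero_mem _
    · let i' : J := ⟨i, D', h0, hD'⟩
      obtain ⟨c, hc⟩ := hall i' D' hD'
      rw [hc]
      have h1 := hgD (e i')
      rw [Equiv.symm_apply_apply] at h1
      exact hg _ h1 c
  · refine der_alg E (x '' S) ?_ (hinv a (mem_inv.mp ha))
    rintro _ ⟨s, hs, rfl⟩
    refine hE s ?_ ?_
    · rintro rfl
      exact hkS hs
    · rintro rfl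
      exact hS₀ hs

/-- varieties dominated by a hypersurface with a generic meromorphic point -/
theorem brody_of_generic {N M : ℕ} {F : MvPolynomial (Fin N) ℂ} {P : Fin N → Mer}
    (hP : ∀ Q : MvPolynomial (Fin N) ℂ, aeval P Q = 0 ↔ F ∣ Q)
    (ξ : Fin (M + 1) → MvPolynomial (Fin N) ℂ)
    (hξ : (ratImage {v | eval v F = 0} ξ).Nonempty) :
    IsBrodySpecial (zariskiClosure (ratImage {v | eval v F = 0} ξ)) := by
  have hP1 : aeval P F = 0 := (hP F).2 dvd_rfl
  have hIs : {v : Fin N → ℂ | eval v F = 0} =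
      {v | ∀ Q, aeval P Q = 0 → eval v Q = 0} := by
    ext v
    constructor
    · intro hv Q hQ
      obtain ⟨S, rfl⟩ := (hP Q).1 hQ
      rw [eval_mul, show eval v F = 0 from hv, zero_mul]
    · intro hv
      exact hv F hP1
  have hne : ∃ i, aeval P (ξ i) ≠ 0 := by
    by_contra hcon
    push Not at hcon
    obtain ⟨_, v, hv, hv0, -⟩ := hξ
    apply hv0
    funext i
    obtain ⟨S, hS⟩ := (hP _).1 (hcon i)
    show eval v (ξ i) = 0
    rw [hS, eval_mul, show eval v F = 0 from hv, zero_mul]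
  rw [hIs]
  exact brodySpecial_of_point _ ξ hne

end Pool.Agent.U207.GB
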