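import Pool.Agent.TH178.GM.Orbit
import Pool.Agent.W572.Density

/-! Meromorphic points which specialize to a given meromorphic point, of maximal transcendence
degree. Adapted from `Pool.Agent.TH178.GM.Orbit`, where the given point is a complex point. -/

set_option autoImplicit false

namespace Pool.Agent.U207.GB

open MvPolynomial Pool.Agent.W599.CB Algebra Pool.Agent.TH178.GM

variable {N : ℕ}

/-- The meromorphic point `P` of the hypersurface `H = 0` specializes to the meromorphic point `c`. -/
def Over (H : MvPolynomial (Fin N) ℂ) (c P : Fin N → Mer) : Prop :=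
  aeval P H = 0 ∧ ∀ g : MvPolynomial (Fin N) ℂ, aeval P g = 0 → aeval c g = 0

theorem exists_max {H : MvPolynomial (Fin N) ℂ} {c : Fin N → Mer} (hc : aeval c H = 0) :
    ∃ P, Over H c P ∧ ∃ S : Set (Fin N), AlgebraicIndepOn ℂ P S ∧
      ∀ P', Over H c P' → ∀ S' : Set (Fin N), AlgebraicIndepOn ℂ P' S' → S'.ncard ≤ S.ncard := by
  classical
  let p : ℕ → Prop := fun k => ∃ P, Over H c P ∧ ∃ S : Set (Fin N), AlgebraicIndepOn ℂ P S ∧
    S.ncard = k
  have h0 : p 0 := by
    refine ⟨c, ⟨hc, fun g hg => hg⟩, ∅, ?_, by simp⟩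
    rw [AlgebraicIndepOn, algebraicIndependent_empty_type_iff]
    exact FaithfulSMul.algebraMap_injective ℂ Mer
  have hb : ∀ k, p k → k ≤ N := by
    rintro k ⟨P, -, S, -, rfl⟩
    calc S.ncard ≤ (Set.univ : Set (Fin N)).ncard := Set.ncard_le_ncard (Set.subset_univ S)
      _ = N := by rw [Set.ncard_univ, Nat.card_eq_fintype_card, Fintype.card_fin]
  obtain ⟨P, hP, S, hS, hk⟩ := Nat.findGreatest_spec (P := p) (Nat.zero_le N) h0
  refine ⟨P, hP, S, hS, fun P' hP' S' hS' => ?_⟩
  have h1 : p S'.ncard := ⟨P', hP', S', hS', rfl⟩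
  rw [hk]
  exact Nat.le_findGreatest (hb _ h1) h1

theorem stable {H : MvPolynomial (Fin N) ℂ} {r : Fin N → ℂ} (c : CurveFamily H)
    (hden : value r 0 0 c.den ≠ 0) {γ : Fin N → Mer}
    (hr : ∀ g : MvPolynomial (Fin N) ℂ, aeval γ g = 0 → eval r g = 0)
    {P : Fin N → Mer} (hP : Over H γ P) {S : Set (Fin N)}
    (hS : AlgebraicIndepOn ℂ P S)
    (hmax : ∀ P', Over H γ P' → ∀ S' : Set (Fin N), AlgebraicIndepOn ℂ P' S' →
      S'.ncard ≤ S.ncard) (g : MvPolynomial (Fin N) ℂ) (hg : aeval P g = 0) :
    aeval P (c.velocity g) = 0 := by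
  classical
  by_contra hne
  have himg : ∀ Q : Fin N → Mer, Q '' S = Set.range (fun j : S => Q j) := fun Q =>
    Set.image_eq_range Q S
  have hR : Rich (adjoin ℂ (P '' S)) Mer := by
    rw [himg]
    exact fun a b => exists_point hS a b
  set K := algF (F := Mer) (adjoin ℂ (P '' S)) with hK
  have hPK : ∀ l, P l ∈ K := adjoin_mem_algF hS (hmax P hP)
  let κ : ℂ →+* K := (algebraMap ℂ Mer).codRestrict K (fun a => by
    have h1 : algebraMap ℂ Mer a = algebraMap (adjoin ℂ (P '' S)) Mer
      (algebraMap ℂ (adjoin ℂ (P '' S)) a) := rfl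
    rw [h1]
    exact isAlgebraic_algebraMap _)
  let _ : Algebra ℂ K := κ.toAlgebra
  have _ : IsScalarTower ℂ K Mer := IsScalarTower.of_algebraMap_eq fun a => rfl
  obtain ⟨P₁, hP₁⟩ : ∃ P₁ : Fin N → K, ∀ l, (P₁ l : Mer) = P l := ⟨fun l => ⟨P l, hPK l⟩,
    fun _ => rfl⟩
  have hval : ∀ q : MvPolynomial (Fin N) ℂ, aeval P q = algebraMap K Mer (aeval P₁ q) := by
    intro q
    have h1 : aeval (fun l => algebraMap K Mer (P₁ l)) q = algebraMap K Mer (aeval P₁ q) :=
      MvPolynomial.aeval_algebraMap_apply Mer P₁ q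
    rw [← h1]
    have h2 : (fun l => algebraMap K Mer (P₁ l)) = P := funext hP₁
    rw [h2]
  have hz : ∀ q : MvPolynomial (Fin N) ℂ, aeval P₁ q = 0 ↔ aeval P q = 0 := by
    intro q
    rw [hval]
    exact (map_eq_zero_iff _ (algebraMap K Mer).injective).symm
  obtain ⟨P', h1, h2, h3⟩ := move (F := Mer) (richOver hR) c P₁ ((hz H).2 hP.1) r
    (fun q hq => hr q (hP.2 q ((hz q).1 hq))) hden g (fun h => hne ((hz _).1 h))
  have h2' : ∀ q : MvPolynomial (Fin N) ℂ, aeval P' q = 0 → aeval P q = 0 :=
    fun q hq => (hz q).1 (h2 q hq)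
  have hP' : Over H γ P' := ⟨h1, fun q hq => hP.2 q (h2' q hq)⟩
  -- the same coordinates are independent
  have hS' : AlgebraicIndepOn ℂ P' S := by
    rw [AlgebraicIndepOn, algebraicIndependent_iff]
    intro q hq
    have e1 : aeval P' (rename (Subtype.val : S → Fin N) q) = 0 := by
      rw [aeval_rename]; exact hq
    have e2 := h2' _ e1
    rw [aeval_rename] at e2
    exact (algebraicIndependent_iff.1 hS) q e2
  have hmem := adjoin_mem_algF hS' (hmax P' hP')
  have hgm : aeval P' g ∈ algF (F := Mer) (adjoin ℂ (P' '' S)) := by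
    have : ∀ q : MvPolynomial (Fin N) ℂ, aeval P' q ∈ algF (F := Mer) (adjoin ℂ (P' '' S)) := by
      intro q
      induction q using MvPolynomial.induction_on with
      | C a =>
        rw [aeval_C]
        have h1 : algebraMap ℂ Mer a = algebraMap (adjoin ℂ (P' '' S)) Mer
          (algebraMap ℂ (adjoin ℂ (P' '' S)) a) := rfl
        rw [h1]
        exact isAlgebraic_algebraMap _
      | add p q hp hq =>
        rw [map_add]
        exact (algF (F := Mer) (adjoin ℂ (P' '' S))).add_mem hp hq
      | mul_X p i hp =>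
        rw [map_mul, aeval_X]
        exact (algF (F := Mer) (adjoin ℂ (P' '' S))).mul_mem hp (hmem i)
    exact this g
  rw [mem_algF] at hgm
  obtain ⟨q, hq0, hq⟩ := hgm.exists_nonzero_coeff_and_aeval_eq_zero
    (mem_nonZeroDivisors_of_ne_zero h3)
  have hlift : ∀ x : adjoin ℂ (P' '' S), ∃ p : MvPolynomial S ℂ,
      aeval (fun j : S => P' j) p = (x : Mer) := by
    intro x
    have hx : (x : Mer) ∈ adjoin ℂ (Set.range (fun j : S => P' j)) := by
      rw [← himg]; exact x.2
    rw [Algebra.adjoin_range_eq_range_aeval] at hx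
    exact hx
  choose lift hlift using hlift
  obtain ⟨G, hG⟩ : ∃ G : MvPolynomial (Fin N) ℂ, G = ∑ i ∈ Finset.range (q.natDegree + 1),
    rename (Subtype.val : S → Fin N) (lift (q.coeff i)) * g ^ i := ⟨_, rfl⟩
  have hre : ∀ (Q : Fin N → Mer) (p : MvPolynomial S ℂ),
      aeval Q (rename (Subtype.val : S → Fin N) p) = aeval (fun j : S => Q j) p := by
    intro Q p
    rw [aeval_rename]; rfl
  have hGP' : aeval P' G = 0 := by
    rw [hG, map_sum, ← hq, Polynomial.aeval_eq_sum_range]
    refine Finset.sum_congr rfl fun i _ => ?_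
    rw [map_mul, map_pow, hre, hlift, Algebra.smul_def]
    rfl
  have hGP := h2' G hGP'
  rw [hG, map_sum, Finset.sum_range_succ', Finset.sum_eq_zero, zero_add, pow_zero, mul_one,
    hre] at hGP
  · have h4 := (algebraicIndependent_iff.1 hS) _ hGP
    have h5 := hlift (q.coeff 0)
    rw [h4, map_zero] at h5
    exact hq0 (Subtype.ext h5.symm)
  · intro i _
    rw [map_mul, map_pow, hg, zero_pow (Nat.succ_ne_zero i), mul_zero]

/-- a set of polynomials which is closed under the derivatives with respect to the variables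
outside `S` and contains no polynomials in the variables in `S` is zero -/
theorem zero_of_closed {σ : Type} [Finite σ] {F : Type} [Field F] [CharZero F] (S : Set σ)
    (I : Set (MvPolynomial σ F)) (hI : ∀ G ∈ I, ∀ j ∉ S, pderiv j G ∈ I)
    (hS : ∀ G ∈ I, (G.vars : Set σ) ⊆ S → G = 0) : ∀ G ∈ I, G = 0 := by
  classical
  have key : ∀ n : ℕ, ∀ G ∈ I, G.totalDegree < n → G = 0 := by
    intro n
    induction n with
    | zero => intro G _ h; exact absurd h (Nat.not_lt_zero _)
    | succ n ih =>
      intro G hG hn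
      refine hS G hG fun j hj => ?_
      by_contra hjS
      -- the derivative is not zero and of smaller degree
      rw [Finset.mem_coe, mem_vars] at hj
      obtain ⟨m, hm, hmj⟩ := hj
      rw [Finsupp.mem_support_iff] at hmj
      have h1 : pderiv j G ≠ 0 := by
        intro h0
        have h2 : coeff (m - Finsupp.single j 1) (pderiv j G) = 0 := by rw [h0, coeff_zero]
        rw [coeff_pderiv] at h2
        have h3 : m - Finsupp.single j 1 + Finsupp.single j 1 = m := by
          apply tsub_add_cancel_of_le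
          rw [Finsupp.single_le_iff]
          omega
        rw [h3] at h2
        rcases mul_eq_zero.mp h2 with h4 | h4
        · exact (mem_support_iff.1 hm) h4
        · exact Nat.cast_add_one_ne_zero _ h4
      have hn0 : 0 < n := by
        rcases Nat.eq_zero_or_pos n with h | h
        · exfalso
          subst h
          have h9 : G.totalDegree = 0 := by omega
          rw [totalDegree_eq_zero_iff_eq_C] at h9
          rw [h9, pderiv_C] at h1
          exact h1 rfl
        · exact h
      have h2 : (pderiv j G).totalDegree < n := by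
        rw [totalDegree, Finset.sup_lt_iff (by simpa using hn0)]
        intro a ha
        rw [mem_support_iff, coeff_pderiv] at ha
        have h6 : coeff (a + Finsupp.single j 1) G ≠ 0 := left_ne_zero_of_mul ha
        have h7 := le_totalDegree (mem_support_iff.2 h6)
        have h8 : (a + Finsupp.single j 1).sum (fun _ e => e) = a.sum (fun _ e => e) + 1 := by
          rw [Finsupp.sum_add_index' (fun _ => rfl) (fun _ _ _ => rfl),
            Finsupp.sum_single_index rfl]
        rw [h8] at h7
        omega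
      exact h1 (ih _ (hI G hG j hjS) h2)
  intro G hG
  exact key _ G hG (Nat.lt_succ_self _)

end Pool.Agent.U207.GB
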