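import Pool.Agent.U207.GB.Lie
import Pool.Agent.U207.GB.Orb
import Pool.Agent.Y742.BS.Gen
import Pool.Agent.R867.Mov.Spec

/-! Zariski dense entire curves from meromorphic points which are dense in the base. -/

set_option autoImplicit false

namespace Pool.Agent.U207.GB

open MvPolynomial

section

variable {Ω K : Type} [Field Ω] [Field K] [Algebra Ω K] {N : ℕ}

/-- stable ideals, for tangent vectors in the span of the given derivations; adapted from
`Pool.Agent.Y742.GG.stable` -/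
theorem stable_rel {m : ℕ} {x : Fin N → K} {F : MvPolynomial (Fin N) Ω}
    (hx : ∀ f : K, ∃ P Q : MvPolynomial (Fin N) Ω, aeval x Q ≠ 0 ∧ f * aeval x Q = aeval x P)
    (hF : ∀ P : MvPolynomial (Fin N) Ω, aeval x P = 0 ↔ F ∣ P)
    (D : Fin m → Derivation Ω K K) (l₀ k : Fin N)
    (hgen : ∀ g : LieSubalgebra Ω (Derivation Ω K K), (∀ D ∈ g, ∀ c : K, c • D ∈ g) →
      (∀ i, D i ∈ g) → ∀ E : Derivation Ω K K, (∀ l, l ≠ k → l ≠ l₀ → E (x l) = 0) → E ∈ g)
    (u : Fin m → MvPolynomial (Fin N) Ω) (v : Fin m → Fin N → MvPolynomial (Fin N) Ω)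
    (hu : ∀ i, aeval x (u i) ≠ 0) (hv : ∀ i l, aeval x (v i l) = aeval x (u i) * D i (x l)) :
    ∃ h : MvPolynomial (Fin N) Ω, aeval x h ≠ 0 ∧ ∀ I : Ideal (MvPolynomial (Fin N) Ω), F ∈ I →
      (∀ i, ∀ g ∈ I, ∑ l, pderiv l g * v i l ∈ I) →
      ∀ g ∈ I, h * (pderiv l₀ F * pderiv k g - pderiv k F * pderiv l₀ g) ∈ I := by
  classical
  set J : Set (Ideal (MvPolynomial (Fin N) Ω)) :=
    {I | F ∈ I ∧ ∀ i, ∀ g ∈ I, ∑ l, pderiv l g * v i l ∈ I} with hJ
  have hmem : ∀ i, D i ∈ Y742.GG.LK x J := by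
    intro i
    refine ⟨u i, mkDerivation Ω (v i), hu i, Y742.GG.lft_of fun l => ?_, ?_⟩
    · rw [mkDerivation_X, hv]
    · intro I hI g hg
      rw [W572.derivation_eq_sum]
      simp only [mkDerivation_X]
      exact hI.2 i g hg
  obtain ⟨E', hE'⟩ := Y742.GG.exists_der hx (fun l => (if l = k then aeval x (pderiv l₀ F) else 0) -
    if l = l₀ then aeval x (pderiv k F) else 0) (by
      intro P hP
      obtain ⟨G, rfl⟩ := (hF P).1 hP
      have h0 : aeval x F = 0 := (hF F).2 dvd_rfl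
      simp only [Derivation.leibniz, smul_eq_mul, map_add, map_mul, h0, zero_mul, zero_add,
        mul_sub, Finset.sum_sub_distrib, mul_ite, mul_zero, Finset.sum_ite_eq', Finset.mem_univ,
        if_true]
      ring)
  have hE : E' ∈ Y742.GG.LK x J := hgen _ (fun D hD c => Y742.GG.LK_smul hx hD c) hmem E' (by
    intro l h1 h2
    rw [hE', if_neg h1, if_neg h2, sub_zero])
  obtain ⟨h, E, hh, hl, hs⟩ := hE
  refine ⟨h, hh, fun I hFI hI g hg => ?_⟩
  have hII : I ∈ J := ⟨hFI, hI⟩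
  have h1 := hs I hII g hg
  have h2 : ∀ l, E (X l) - h * ((if l = k then pderiv l₀ F else 0) -
      if l = l₀ then pderiv k F else 0) ∈ I := by
    intro l
    have h3 : aeval x (E (X l) - h * ((if l = k then pderiv l₀ F else 0) -
      if l = l₀ then pderiv k F else 0)) = 0 := by
      rw [map_sub, hl, map_mul, aeval_X, hE', sub_eq_zero]
      congr 1
      rw [map_sub]
      congr 1 <;> split_ifs <;> simp
    exact I.mem_of_dvd ((hF _).1 h3) hFI
  rw [W572.derivation_eq_sum] at h1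
  have h3 : ∑ l, pderiv l g * (E (X l) - h * ((if l = k then pderiv l₀ F else 0) -
      if l = l₀ then pderiv k F else 0)) ∈ I :=
    I.sum_mem fun l _ => I.mul_mem_left _ (h2 l)
  have h4 := I.sub_mem h1 h3
  rw [← Finset.sum_sub_distrib] at h4
  have h5 : ∑ l, (pderiv l g * E (X l) - pderiv l g * (E (X l) - h *
      ((if l = k then pderiv l₀ F else 0) - if l = l₀ then pderiv k F else 0))) =
      h * (pderiv l₀ F * pderiv k g - pderiv k F * pderiv l₀ g) := by
    have : ∀ l, (pderiv l g * E (X l) - pderiv l g * (E (X l) - h *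
      ((if l = k then pderiv l₀ F else 0) - if l = l₀ then pderiv k F else 0))) =
      (if l = k then h * (pderiv l₀ F * pderiv l g) else 0) -
        (if l = l₀ then h * (pderiv k F * pderiv l g) else 0) := by
      intro l
      split_ifs <;> ring
    rw [Finset.sum_congr rfl fun l _ => this l]
    simp only [Finset.sum_sub_distrib, Finset.sum_ite_eq', Finset.mem_univ, if_true]
    ring
  rw [h5] at h4
  exact h4

end

open Pool.Agent.Y742.GG Pool.Agent.TH178.GM Pool.Agent.W599.CB Pool.Agent.W572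
open Pool.Agent.W572.G

variable {K : Type} [Field K] [Algebra ℂ K] {N m : ℕ}

/-- A meromorphic point which is dense in the base and not in a closed subset gives a generic
meromorphic point. -/
theorem gen_rel {F : MvPolynomial (Fin N) ℂ} (hF : Irreducible F) {x : Fin N → K}
    (hx : ∀ P : MvPolynomial (Fin N) ℂ, aeval x P = 0 ↔ F ∣ P)
    (hx2 : IntermediateField.adjoin ℂ (Set.range x) = ⊤) {S : Set (Fin N)} {l₀ : Fin N}
    (hS₀ : l₀ ∉ S) (hl₀ : pderiv l₀ F ≠ 0)
    (D : Fin m → Derivation ℂ K K)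
    (hgen : ∀ k, k ∉ S → k ≠ l₀ → ∀ g : LieSubalgebra ℂ (Derivation ℂ K K),
      (∀ D ∈ g, ∀ c : K, c • D ∈ g) → (∀ i, D i ∈ g) → ∀ E : Derivation ℂ K K,
        (∀ l, l ≠ k → l ≠ l₀ → E (x l) = 0) → E ∈ g)
    (c : Fin m → CurveFamily F) (hden : ∀ i, aeval x (atOrigin (c i).den) ≠ 0)
    (hvel : ∀ i, ∃ κ : K, κ ≠ 0 ∧ ∀ l, aeval x ((c i).velocity (X l)) = κ * D i (x l)) :
    ∃ T : MvPolynomial (Fin N) ℂ, aeval x T ≠ 0 ∧ ∀ γ : Fin N → Mer, aeval γ F = 0 →
      aeval γ T ≠ 0 → AlgebraicIndependent ℂ (fun i : S => γ i) →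
      ∃ P : Fin N → Mer, ∀ Q : MvPolynomial (Fin N) ℂ, aeval P Q = 0 ↔ F ∣ Q := by
  classical
  have hfrac : ∀ f : K, ∃ P Q : MvPolynomial (Fin N) ℂ, aeval x Q ≠ 0 ∧
      f * aeval x Q = aeval x P := by
    intro f
    have hf : f ∈ IntermediateField.adjoin ℂ (Set.range x) := by
      rw [hx2]; trivial
    rw [IntermediateField.mem_adjoin_range_iff] at hf
    obtain ⟨r, s, hrs⟩ := hf
    by_cases hs : aeval x s = 0
    · rw [hs, div_zero] at hrs
      exact ⟨0, 1, by simp, by simp [hrs]⟩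
    · exact ⟨r, s, hs, by rw [hrs, div_mul_cancel₀ _ hs]⟩
  choose Pf Qf hQf hPf using hfrac
  choose κ hκ hv using hvel
  have hst : ∀ a : Fin N, ∃ h : MvPolynomial (Fin N) ℂ, aeval x h ≠ 0 ∧ (a ∉ S → a ≠ l₀ →
      ∀ I : Ideal (MvPolynomial (Fin N) ℂ), F ∈ I →
        (∀ i, ∀ g ∈ I, ∑ l, pderiv l g * (Qf (κ i) * (c i).velocity (X l)) ∈ I) →
        ∀ g ∈ I, h * (pderiv l₀ F * pderiv a g - pderiv a F * pderiv l₀ g) ∈ I) := by
    intro a
    by_cases h1 : a ∉ S ∧ a ≠ l₀
    · obtain ⟨h, hh, hst⟩ := stable_rel (fun f => ⟨Pf f, Qf f, hQf f, hPf f⟩) hx D l₀ a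
        (hgen a h1.1 h1.2) (fun i => Pf (κ i)) (fun i l => Qf (κ i) * (c i).velocity (X l))
        (fun i => by rw [← hPf]; exact mul_ne_zero (hκ i) (hQf _))
        (fun i l => by rw [map_mul, hv, ← hPf]; ring)
      exact ⟨h, hh, fun _ _ => hst⟩
    · exact ⟨1, by simp, fun h2 h3 => absurd ⟨h2, h3⟩ h1⟩
  choose h hh hst using hst
  set H := ∏ a, h a with hH
  have hH0 : aeval x H ≠ 0 := by
    rw [hH, map_prod]
    exact Finset.prod_ne_zero_iff.2 fun l _ => hh _
  refine ⟨H * pderiv l₀ F * ∏ i, atOrigin (c i).den, ?_, ?_⟩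
  · rw [map_mul, map_mul]
    refine mul_ne_zero (mul_ne_zero hH0 ?_)
      (by rw [map_prod]; exact Finset.prod_ne_zero_iff.2 fun i _ => hden i)
    rw [Ne, hx]
    exact not_dvd_pderiv hl₀
  intro γ hγF hγT hγS
  -- a complex point
  obtain ⟨r, hrγ, hr⟩ := Pool.Agent.R867.Mov.densePts_of_isAlgClosed (k := ℂ) γ _ hγT
  have hrF : eval r F = 0 := hrγ F hγF
  rw [map_mul, map_mul] at hr
  have hrH : eval r H ≠ 0 := left_ne_zero_of_mul (left_ne_zero_of_mul hr)
  have hrl : eval r (pderiv l₀ F) ≠ 0 := right_ne_zero_of_mul (left_ne_zero_of_mul hr)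
  have hrd : ∀ i, value r 0 0 (c i).den ≠ 0 := by
    intro i
    rw [← eval_atOrigin]
    have h1 := right_ne_zero_of_mul hr
    rw [map_prod] at h1
    exact Finset.prod_ne_zero_iff.1 h1 i (Finset.mem_univ i)
  obtain ⟨P, hP, S', hS', hmax⟩ := exists_max hγF
  set I : Ideal (MvPolynomial (Fin N) ℂ) := RingHom.ker (aeval P : _ →ₐ[ℂ] Mer) with hI
  have hmem : ∀ g, g ∈ I ↔ aeval P g = 0 := fun g => RingHom.mem_ker
  have hPr : ∀ g : MvPolynomial (Fin N) ℂ, aeval P g = 0 → eval r g = 0 := fun g hg =>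
    hrγ g (hP.2 g hg)
  have hstI : ∀ i, ∀ g ∈ I, ∑ l, pderiv l g * (Qf (κ i) * (c i).velocity (X l)) ∈ I := by
    intro i g hg
    have h1 := stable (c i) (hrd i) (fun g hg => hrγ g hg) hP hS' hmax g ((hmem g).1 hg)
    rw [W572.derivation_eq_sum] at h1
    rw [hmem]
    have h2 : ∑ l, pderiv l g * (Qf (κ i) * (c i).velocity (X l)) =
        Qf (κ i) * ∑ l, pderiv l g * (c i).velocity (X l) := by
      rw [Finset.mul_sum]
      exact Finset.sum_congr rfl fun l _ => by ring
    rw [h2, map_mul]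
    rw [show aeval P (∑ l, pderiv l g * (c i).velocity (X l)) = 0 from h1, mul_zero]
  have hFI : F ∈ I := (hmem F).2 hP.1
  have hclosed : ∀ a, a ∉ S → a ≠ l₀ → ∀ g ∈ I,
      pderiv l₀ F * pderiv a g - pderiv a F * pderiv l₀ g ∈ I := by
    intro a haS hal g hg
    have h1 := hst a haS hal I hFI hstI g hg
    rw [hmem] at h1 ⊢
    rw [map_mul] at h1
    refine (mul_eq_zero.1 h1).resolve_left fun h0 => ?_
    have h2 := hPr _ h0
    apply hrH
    rw [hH, map_prod]
    exact Finset.prod_eq_zero (Finset.mem_univ a) h2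
  refine ⟨P, fun Q => ⟨fun hQ => ?_, ?_⟩⟩
  · by_contra hFQ
    obtain ⟨G, hG, A', B', hAB⟩ := exists_elim F Q l₀ hF hl₀ hFQ
    apply hG
    refine zero_of_closed {j : {j // j ≠ l₀} | (j : Fin N) ∈ S}
      {G | aeval P (rename (Subtype.val : {j // j ≠ l₀} → Fin N) G) = 0}
      (fun G hG j hj => ?_) (fun G hG hGS => ?_) G ?_
    · have h1 := hclosed j hj j.2 _ ((hmem _).2 hG)
      have h6 : pderiv l₀ (rename (Subtype.val : {j // j ≠ l₀} → Fin N) G) = 0 := by
        refine pderiv_eq_zero_of_notMem_vars ?_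
        intro h6
        have h7 := vars_rename (Subtype.val : {j // j ≠ l₀} → Fin N) G h6
        rw [Finset.mem_image] at h7
        obtain ⟨i, -, hi⟩ := h7
        exact i.2 hi
      rw [h6, mul_zero, sub_zero, hmem, map_mul] at h1
      have h2 := (mul_eq_zero.1 h1).resolve_left fun h0 => hrl (hPr _ h0)
      rw [pderiv_rename Subtype.val_injective] at h2
      exact h2
    · -- a polynomial in the coordinates of the base
      rw [← mem_supported, supported_eq_range_rename, AlgHom.mem_range] at hGS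
      obtain ⟨G₁, hG₁⟩ := hGS
      obtain ⟨e, he⟩ : ∃ e : {j : {j // j ≠ l₀} | (j : Fin N) ∈ S} → S, e = fun j => ⟨j, j.2⟩ :=
        ⟨_, rfl⟩
      have hinj : Function.Injective e := by
        intro a b hab
        rw [he] at hab
        exact Subtype.ext (Subtype.ext (congrArg (fun z : S => (z : Fin N)) hab))
      have h1 : aeval (fun i : S => P i) (rename e G₁) = 0 := by
        rw [← hG₁] at hG
        have h2 : aeval P (rename (Subtype.val : {j // j ≠ l₀} → Fin N)
          (rename (Subtype.val : {j : {j // j ≠ l₀} | (j : Fin N) ∈ S} → {j // j ≠ l₀}) G₁)) = 0 :=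
          hG
        rw [aeval_rename, aeval_rename] at h2
        rw [aeval_rename, he]
        exact h2
      have h2 : aeval (fun i : S => γ i) (rename e G₁) = 0 := by
        have h3 : aeval P (rename (Subtype.val : S → Fin N) (rename e G₁)) = 0 := by
          rw [aeval_rename]
          exact h1
        have h4 := hP.2 _ h3
        rw [aeval_rename] at h4
        exact h4
      have h3 : rename e G₁ = 0 := hγS (by rw [h2, map_zero])
      have h4 : G₁ = 0 := rename_injective e hinj (by rw [h3, map_zero])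
      rw [← hG₁, h4, map_zero]
    · show aeval P (rename Subtype.val G) = 0
      rw [hAB, map_add, map_mul, map_mul, hP.1, hQ]
      ring
  · rintro ⟨Q', rfl⟩
    rw [map_mul, hP.1, zero_mul]

end Pool.Agent.U207.GB
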